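import Pool.Agent.Helper55_DDQ.Stmts

/-!
# Module ASM: assembly of PRJ, CVF, CVT
-/

set_option autoImplicit false

namespace Pool.Agent.DDQ.H71

open MvPolynomial IntermediateField

/-- `gX l P = P(X, 1, l X)`. -/
noncomputable def gX {K E : Type} [Field K] [Field E] [Algebra K E] (l : E) :
    MvPolynomial (Fin 3) K →ₐ[K] Polynomial E :=
  aeval ![Polynomial.X, 1, Polynomial.C l * Polynomial.X]

lemma gX_natDegree {K E : Type} [Field K] [Field E] [Algebra K E] (l : E)
    (P : MvPolynomial (Fin 3) K) {m : ℕ} (h : P.totalDegree ≤ m) : (gX l P).natDegree ≤ m := by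
  have h1 : gX l P = aeval ![Polynomial.X, 1, Polynomial.C l * Polynomial.X]
      (map (algebraMap K E) P) := by
    rw [aeval_map_algebraMap]; rfl
  rw [h1]
  have h2 := aeval_natDegree_le (m := m) (n := 1) (map (algebraMap K E) P)
    ((Finset.sup_mono (support_map_subset _ _)).trans h)
    (![Polynomial.X, 1, Polynomial.C l * Polynomial.X] : Fin 3 → Polynomial E) (by
      intro i
      fin_cases i
      · exact Polynomial.natDegree_X_le
      · simp
      · exact (Polynomial.natDegree_C_mul_le _ _).trans Polynomial.natDegree_X_le)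
  simpa using h2

lemma homog_deg {K : Type} [Field K] {P : MvPolynomial (Fin 3) K} {m : ℕ}
    (h : P.IsHomogeneous m) {d : Fin 3 →₀ ℕ} (hd : d ∈ P.support) : d 0 + d 1 + d 2 = m := by
  have h1 := h (mem_support_iff.mp hd)
  rw [← h1, Finsupp.weight_apply, Finsupp.sum_fintype _ _ (by simp), Fin.sum_univ_three]
  simp

lemma gX_coeff {K E : Type} [Field K] [Field E] [Algebra K E] (l : E)
    (P : MvPolynomial (Fin 3) K) {m : ℕ} (h : P.IsHomogeneous m) :
    (gX l P).coeff m = aeval ![1, 0, l] P := by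
  rw [gX, aeval_def, aeval_def, eval₂_eq', eval₂_eq', Polynomial.finsetSum_coeff]
  refine Finset.sum_congr rfl fun d hd => ?_
  have h1 := homog_deg h hd
  rw [Fin.prod_univ_three, Fin.prod_univ_three]
  simp only [Matrix.cons_val_zero, Matrix.cons_val_one, Matrix.cons_val, one_pow, mul_one,
    one_mul]
  rw [Polynomial.algebraMap_apply, mul_pow, ← Polynomial.C_pow]
  have h2 : Polynomial.C (algebraMap K E (coeff d P)) *
      (Polynomial.X ^ d 0 * (Polynomial.C (l ^ d 2) * Polynomial.X ^ d 2)) =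
      Polynomial.C (algebraMap K E (coeff d P) * l ^ d 2) * Polynomial.X ^ (d 0 + d 2) := by
    rw [Polynomial.C_mul, pow_add]; ring
  rw [h2, Polynomial.coeff_C_mul, Polynomial.coeff_X_pow]
  by_cases h3 : d 1 = 0
  · rw [if_pos (by omega), h3]; simp
  · rw [if_neg (by omega), zero_pow h3]; simp

lemma gX_aeval {K E L : Type} [Field K] [Field E] [Algebra K E] [Field L] [Algebra K L]
    [Algebra E L] [IsScalarTower K E L] (l : E) (P : MvPolynomial (Fin 3) K) {m : ℕ}
    (h : P.IsHomogeneous m) (A : Fin 3 → L) (M : L) (h0 : A 0 = M * A 1)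
    (h2 : A 2 = algebraMap E L l * A 0) :
    aeval A P = A 1 ^ m * Polynomial.aeval M (gX l P) := by
  have e1 : Polynomial.aeval M (gX l P) = aeval ![M, 1, algebraMap E L l * M] P := by
    have := MvPolynomial.comp_aeval_apply (B := L)
      (![Polynomial.X, 1, Polynomial.C l * Polynomial.X] : Fin 3 → Polynomial E)
      ((Polynomial.aeval M : Polynomial E →ₐ[E] L).restrictScalars K) P
    refine Eq.trans (by exact this) ?_
    congr 2
    funext i
    fin_cases i <;> simp
  rw [e1, aeval_def, aeval_def, eval₂_eq', eval₂_eq', Finset.mul_sum]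
  refine Finset.sum_congr rfl fun d hd => ?_
  have h1 := homog_deg h hd
  rw [Fin.prod_univ_three, Fin.prod_univ_three, ← h1]
  simp only [Matrix.cons_val_zero, Matrix.cons_val_one, Matrix.cons_val, one_pow, mul_one]
  rw [h2, h0]
  ring


section Tower

variable {K L : Type} [Field K] [Field L] [Algebra K L]

lemma indep_iff (l t : L) : AlgebraicIndependent K ![l, t] ↔
    Transcendental K l ∧ Transcendental (adjoin K {l}) t := by
  rw [AlgebraicIndependent.iff_transcendental_adjoin_image (1 : Fin 2), transcendental_adjoin_iff]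
  have h1 : (![l, t] : Fin 2 → L) '' {1}ᶜ = {l} := by
    ext x
    simp only [Set.mem_image, Set.mem_compl_iff, Set.mem_singleton_iff]
    constructor
    · rintro ⟨i, hi, rfl⟩
      fin_cases i
      · rfl
      · exact absurd rfl hi
    · rintro rfl
      exact ⟨0, by decide, rfl⟩
  rw [h1]
  refine and_congr_left fun _ => ?_
  have : Subsingleton {j : Fin 2 // j ≠ 1} := ⟨by decide⟩
  exact algebraicIndependent_singleton_iff (⟨0, by decide⟩ : {j : Fin 2 // j ≠ 1})

lemma finrank_tower (l t : L) : Module.finrank (adjoin (adjoin K {l}) {t}) L =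
    Module.finrank (adjoin K {l, t}) L := by
  have h : (adjoin (adjoin K {l}) {t}).restrictScalars K = adjoin K {l, t} :=
    adjoin_adjoin_left K {l} {t}
  rw [← h]
  rfl

lemma adjoin_top {A : Fin 3 → L} (hA : adjoin K (Set.range A) = ⊤) (h0 : A 0 ≠ 0)
    (h1 : A 1 ≠ 0) :
    adjoin (adjoin K {A 2 / A 0}) {A 0 / A 1, (A 1)⁻¹} = ⊤ := by
  have h2 : adjoin K (Set.range A) ≤
      (adjoin (adjoin K {A 2 / A 0}) {A 0 / A 1, (A 1)⁻¹}).restrictScalars K := by
    rw [adjoin_le_iff]
    have m1 : A 1 ∈ adjoin (adjoin K {A 2 / A 0}) {A 0 / A 1, (A 1)⁻¹} := by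
      have := inv_mem (subset_adjoin (adjoin K {A 2 / A 0}) {A 0 / A 1, (A 1)⁻¹}
        (show (A 1)⁻¹ ∈ ({A 0 / A 1, (A 1)⁻¹} : Set L) by simp))
      simpa using this
    have m0 : A 0 ∈ adjoin (adjoin K {A 2 / A 0}) {A 0 / A 1, (A 1)⁻¹} := by
      have := mul_mem (subset_adjoin (adjoin K {A 2 / A 0}) {A 0 / A 1, (A 1)⁻¹}
        (show A 0 / A 1 ∈ ({A 0 / A 1, (A 1)⁻¹} : Set L) by simp)) m1
      rwa [div_mul_cancel₀ _ h1] at this
    have m2 : A 2 ∈ adjoin (adjoin K {A 2 / A 0}) {A 0 / A 1, (A 1)⁻¹} := by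
      have := mul_mem ((adjoin (adjoin K {A 2 / A 0}) {A 0 / A 1, (A 1)⁻¹}).algebraMap_mem
        (⟨A 2 / A 0, mem_adjoin_simple_self K _⟩ : adjoin K {A 2 / A 0})) m0
      rwa [show algebraMap (adjoin K {A 2 / A 0}) L ⟨A 2 / A 0, mem_adjoin_simple_self K _⟩ =
        A 2 / A 0 from rfl, div_mul_cancel₀ _ h0] at this
    rintro _ ⟨i, rfl⟩
    fin_cases i
    · exact m0
    · exact m1
    · exact m2
  rw [hA, top_le_iff] at h2
  rw [eq_top_iff]
  intro x _
  have : x ∈ (adjoin (adjoin K {A 2 / A 0}) {A 0 / A 1, (A 1)⁻¹}).restrictScalars K := by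
    rw [h2]; trivial
  exact this

/-- Powers of the generator of a purely transcendental extension. -/
lemma finrank_pow {M : L} (hM : Transcendental K M) (h : adjoin K {M} = ⊤) {n : ℕ} :
    Module.finrank (adjoin K {M ^ n}) L = n := by
  obtain ⟨f, hf⟩ : ∃ f : RatFunc K ≃ₐ[K] L, f RatFunc.X = M := by
    refine ⟨(RatFunc.algEquivOfTranscendental M hM).trans
      ((equivOfEq h).trans topEquiv), ?_⟩
    simp
  have h1 := RatFunc.finrank_eq_max_natDegree (RatFunc.X ^ n : RatFunc K)
  have h2 : (RatFunc.X ^ n : RatFunc K) = algebraMap (Polynomial K) (RatFunc K)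
      (Polynomial.X ^ n) := by
    rw [map_pow, RatFunc.algebraMap_X]
  have h3 : max (RatFunc.X ^ n : RatFunc K).num.natDegree
      (RatFunc.X ^ n : RatFunc K).denom.natDegree = n := by
    rw [h2, RatFunc.num_algebraMap, RatFunc.denom_algebraMap]
    simp
  rw [h3, ← relfinrank_top_right, ← relfinrank_map_map _ _ f.toAlgHom] at h1
  have h4 : (⊤ : IntermediateField K (RatFunc K)).map f.toAlgHom = ⊤ := by
    rw [eq_top_iff]
    intro x _
    exact ⟨f.symm x, trivial, by simp⟩
  have h5 : f.toAlgHom (RatFunc.X ^ n) = M ^ n := by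
    rw [map_pow]
    exact congrArg (· ^ n) hf
  rw [h4, adjoin_map, Set.image_singleton, relfinrank_top_right, h5] at h1
  exact h1

/-- A function of degree `n` over `K(l)` gives a transcendence basis of degree `n`. -/
lemma wrap {l : L} (hl : Transcendental K l) {n : ℕ}
    (h : ∃ t : L, Transcendental (adjoin K {l}) t ∧
      Module.finrank (adjoin (adjoin K {l}) {t}) L = n) :
    ∃ T : Fin 2 → L, AlgebraicIndependent K T ∧
      Module.finrank (adjoin K (Set.range T)) L = n := by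
  obtain ⟨t, h1, h2⟩ := h
  refine ⟨![l, t], (indep_iff l t).2 ⟨hl, h1⟩, ?_⟩
  have h3 : Set.range ![l, t] = {l, t} := by
    ext x
    simp only [Set.mem_range, Fin.exists_fin_two, Matrix.cons_val_zero, Matrix.cons_val_one,
      Set.mem_insert_iff, Set.mem_singleton_iff]
    constructor <;> rintro (rfl | rfl) <;> simp
  rw [h3, ← finrank_tower, h2]

end Tower

theorem asm (prj : PrjStmt) (cvf : CvfStmt) (cvt : CvtStmt) : AsmStmt := by
  intro K L _ _ _ _ D F A hD2 hD4 hD hF0 hF1 hF2 hA hAt n hn hn0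
  obtain ⟨hA0, hA1, hind, hfin⟩ := prj K L D F A hD2 hD hF0 hF1 hA hAt
  obtain ⟨l, hl⟩ : ∃ l, l = A 2 / A 0 := ⟨_, rfl⟩
  obtain ⟨M, hM⟩ : ∃ M, M = A 0 / A 1 := ⟨_, rfl⟩
  have htop := adjoin_top hAt hA0 hA1
  rw [← hl, ← hM] at hind hfin htop
  obtain ⟨hlt, hMt⟩ := (indep_iff l M).1 hind
  rw [← finrank_tower] at hfin
  refine wrap hlt ?_
  obtain ⟨E, hE⟩ : ∃ E : IntermediateField K L, E = adjoin K {l} := ⟨_, rfl⟩
  have hlE : l ∈ E := by rw [hE]; exact mem_adjoin_simple_self K l
  rw [← hE] at hMt hfin htop ⊢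
  -- the relation
  obtain ⟨q, hq⟩ : ∃ q : ℕ → Polynomial E, q = fun i => gX (⟨l, hlE⟩ : E)
    (homogeneousComponent i F) := ⟨_, rfl⟩
  have hqd : ∀ i, (q i).natDegree ≤ i := fun i => by
    rw [hq]
    exact gX_natDegree _ _ ((homogeneousComponent_isHomogeneous i F).totalDegree_le)
  have hq2 : (q 2).coeff 2 ≠ 0 := by
    rw [hq]
    show (gX (⟨l, hlE⟩ : E) (homogeneousComponent 2 F)).coeff 2 ≠ 0
    rw [gX_coeff _ _ (homogeneousComponent_isHomogeneous 2 F)]
    intro h0
    apply hF2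
    have hlE' : Transcendental K (⟨l, hlE⟩ : E) := by
      intro halg
      apply hlt
      exact halg.algebraMap (A := L)
    have h3 : Polynomial.aeval (⟨l, hlE⟩ : E) (aeval (![1, 0, Polynomial.X] :
        Fin 3 → Polynomial K) (homogeneousComponent 2 F)) = 0 := by
      rw [← h0]
      refine (MvPolynomial.comp_aeval_apply (B := E)
        (![1, 0, Polynomial.X] : Fin 3 → Polynomial K)
        (Polynomial.aeval (⟨l, hlE⟩ : E)) (homogeneousComponent 2 F)).trans ?_
      congr 2
      funext i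
      fin_cases i <;> simp
    exact (transcendental_iff_injective.1 hlE') (by rw [h3, map_zero])
  have hA0M : A 0 = M * A 1 := by rw [hM, div_mul_cancel₀ _ hA1]
  have hA2l : A 2 = algebraMap E L ⟨l, hlE⟩ * A 0 := by
    show A 2 = l * A 0
    rw [hl, div_mul_cancel₀ _ hA0]
  have hcomp : ∀ i, aeval A (homogeneousComponent i F) = A 1 ^ i * Polynomial.aeval M (q i) :=
    fun i => by
      rw [hq]
      exact gX_aeval _ _ (homogeneousComponent_isHomogeneous i F) A M hA0M hA2l
  have hFA : aeval A F = 0 := (hA F).2 dvd_rfl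
  have hsum : ∑ i ∈ Finset.range (D + 1), aeval A (homogeneousComponent i F) = 0 := by
    rw [← map_sum, ← hD, sum_homogeneousComponent, hFA]
  have hz : (A 1)⁻¹ * A 1 = 1 := inv_mul_cancel₀ hA1
  have hq0 : aeval A (homogeneousComponent 0 F) = 0 := by rw [hF0, map_zero]
  have hq1 : aeval A (homogeneousComponent 1 F) = A 1 := by rw [hF1, aeval_X]
  obtain rfl | rfl | rfl : D = 2 ∨ D = 3 ∨ D = 4 := by omega
  · -- `D = 2`
    have h1 : adjoin E {M} = ⊤ := by
      rw [← finrank_eq_one_iff_eq_top]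
      exact hfin
    have h2 := finrank_pow hMt h1 (n := n)
    refine ⟨M ^ n, ?_, h2⟩
    exact hMt.pow hn0
  · -- `D = 3`
    rw [Finset.sum_range_succ, Finset.sum_range_succ, Finset.sum_range_succ,
      Finset.sum_range_one, hq0, hq1, hcomp 2, hcomp 3] at hsum
    refine cvt E L M (A 1)⁻¹ (q 2) (q 3) hMt htop hfin (hqd 2) (hqd 3) (Or.inl hq2) ?_ n
      (by omega)
    have : (A 1)⁻¹ ^ 3 * (0 + A 1 + A 1 ^ 2 * Polynomial.aeval M (q 2) +
        A 1 ^ 3 * Polynomial.aeval M (q 3)) = 0 := by rw [hsum, mul_zero]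
    rw [← this]
    field_simp
    ring
  · rw [Finset.sum_range_succ, Finset.sum_range_succ, Finset.sum_range_succ,
      Finset.sum_range_succ, Finset.sum_range_one, hq0, hq1, hcomp 2, hcomp 3, hcomp 4] at hsum
    refine cvf E L M (A 1)⁻¹ (q 2) (q 3) (q 4) hMt htop hfin (hqd 2) (hqd 3) (hqd 4) hq2 ?_ n
      (by omega)
    have : (A 1)⁻¹ ^ 4 * (0 + A 1 + A 1 ^ 2 * Polynomial.aeval M (q 2) +
        A 1 ^ 3 * Polynomial.aeval M (q 3) + A 1 ^ 4 * Polynomial.aeval M (q 4)) = 0 := by
      rw [hsum, mul_zero]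
    rw [← this]
    field_simp
    ring

end Pool.Agent.DDQ.H71
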